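import Mathlib
import Pool.Agent.N780.SB.Defs
import Pool.Agent.N780.SB.Defs7
import Pool.Agent.N780.SB.Defs8
import Pool.Agent.N780.SB.ZPC
import Pool.Agent.N780.SB.UNRM
import Pool.Agent.N780.SB.RAMT
import Pool.Agent.N780.SB.DEX
import Pool.Agent.N780.SB.FIBC
import Pool.Agent.N780.SB.FIN
import Pool.Agent.N780.SB.CONST
import Pool.Agent.N780.SB.PW
import Pool.Agent.N780.SB.PU1Z
import Pool.Agent.N780.SB.PU2Z
import Pool.Agent.N780.SB.TTZ

/-!
# Torsion relations between points of a curve with a moving simple branch point

Let `K` be an algebraically closed field of characteristic zero with a derivation `δ`, for example an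
algebraic closure of `ℂ(t)`, or of a function field over `ℂ(t)`. Let `x : C → ℙ¹` be a covering of degree
`n` over `K` with function field `F`, which is branched over finitely many constant points `S` (`δ c = 0` for
`c ∈ S`), over infinity (possibly), and over one moving point `x = t`, `δ t = 1`, where it has simple
ramification. In terms of the discriminant: the coordinate ring `A` of the preimage of `ℙ¹ - (S ∪ {∞})` is a
free module over `O = K[x, 1/(x - c) : c ∈ S]` whose discriminant is `x - t` up to units. The functions
whose expansions at the points over `t` are series in `x - t` are the functions on the largest intermediate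
covering `C → C₀ → ℙ¹` which is not branched over `x = t`; it is defined over the constants, and `C₀ ≠ C`.
The points of `C` are given by the orders of vanishing `v : F → ℤ`.

**Theorem.** Suppose that the gonality of `C` is at least `m + 3` (every function whose poles are bounded by
a divisor of degree at most `m + 2` is constant).
(1) Let `h ≠ 0` be a function on `C` with at most `m + 1` zeros and poles `P` (not counted with
multiplicity) at which `x` is not constant, i.e. `x(P) ≠ ∞`, `δ x(P) ≠ 0`. Then `x` is constant or infinite at
all zeros and poles of `h`, and `h` is a function on `C₀`.
(2) Let the covering `C → ℙ¹` be without intermediate coverings, and `Q₀` a point of `C`. There is a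
finite list of subvarieties of `C^m`, given by equations `P_i = P_j` and `P_i = Q` with some points `Q`, such
that for all systems `Λ` of integral vectors `l` the set of all `(P_1, ..., P_m)` such that for all `l` in `Λ` the class
`∑ l_i (P_i - Q₀)` is torsion in the Jacobian of `C` is the union of members of the list.

(1) means that the points of `C` satisfy no linear relations, modulo torsion, with few terms
over non-constant points; and all (infinitely many) points over the constants together are independent, up to the
pull-backs of principal divisors of `C₀`, i.e. up to the fibres of `x` if there are no intermediate coverings.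

## Relation to the relative Pink conjecture

Let `B` be a Hurwitz curve over `ℂ` (one simple branch point `t` moves, the others are fixed), `𝒞 → B` the
curve, `𝒥 → B` its Jacobian, `𝒢 = 𝒥^m` (an abelian scheme, the toric rank is zero), and `Z = 𝒞^m ⊂ 𝒢`, of
dimension `d = m + 1`, embedded with a section `Q₀`. The endomorphisms of the generic fibre `J` of `𝒥` are the
integers (MovingBranchPoint, MP_33b3f9_ag), so that every algebraic subgroup of the generic fibre of `𝒢`
is, up to torsion, given by a system `Λ`. The theorem, over the field `K` of algebraic functions on the
subvarieties of `Z`, shows: the components of the intersections of `Z` with all the algebraic subgroups of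
the generic fibre of `𝒢` form a finite list, of diagonals and constant points; in particular those in the
generic part of `Z ∩ 𝒢^[>d]` are not dense in `Z`. What remains is the part of `Z ∩ 𝒢^[>d]` over
special points of `B`.

That the list is finite (without the form of its members and without assumption on the gonality) also follows
from MovingBranchPoint and the theorem of Barroero and Dill that the Zilber-Pink conjecture holds for
abelian varieties without factors defined over the algebraic numbers.

Proof. Let `T` be the derivation of `F` with `T x = 0` extending `δ`. At a point with constant `x` the function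
`T h / h` is regular, at a point with `x = c` not constant, `c ≠ t`, it is regular if `h` has no zero or pole there
and has a simple pole otherwise; at the point ramified over `t` it has a pole of order at most one,
and of order two if `h` has a zero or pole there. So `T h / h` has at most `m + 2` poles and is constant by the
assumption on the gonality. Then there are no zeros and poles with non-constant `x`, and
`T h = b h` shows that the expansions of `h` over `t` contain no odd powers of `√(x - t)`. In (2) the function `h` is
a rational function of `x`, with at most `m + 1` zeros and poles, and fibres outside `S` and infinity have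
`n > m + 2` points; so the relation is supported over `S` and infinity after cancellation.
-/

set_option autoImplicit false

namespace Pool.Agent.Results.MP_4fdccb_ag.CurvePowers

open Pool.Agent.N780.SB

universe u v

/-- Torsion relations between at most `m` points of a curve with a moving simple branch point and
gonality at least `m + 3`: Zilber-Pink for `C^m`. -/
theorem result {K : Type u} {F : Type v} [Field K] [IsAlgClosed K] [CharZero K] [Field F]
    -- a covering of degree `n`, the moving point `t`, the constant points `S`
    [Algebra (RatFunc K) F] (n : ℕ) (hn : 0 < n) (δ : Derivation ℤ K K) (t : K) (ht : δ t = 1)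
    (S : Finset K) (hS : ∀ c ∈ S, δ c = 0)
    -- the affine curve `A` over `ℙ¹ - (S ∪ {∞})`, with discriminant `x - t` up to units
    (a : Fin n → F) (hA : IsAffineCurve S t a)
    -- the gonality is at least `m + 3`
    (m : ℕ) (hgon : GonGT K F (m + 2)) :
    -- (1) functions with at most `m + 1` zeros and poles which do not lie over constants
    (∀ h : F, h ≠ 0 → {v : Point K F | v.1 h ≠ 0 ∧ ¬ IsConst δ v}.encard ≤ (m + 1 : ℕ) →
      (∀ v : Point K F, v.1 h ≠ 0 → IsConst δ v) ∧ Unr t h) ∧
    -- (2) torsion relations
    ((∀ L : IntermediateField (RatFunc K) F, L = ⊥ ∨ L = ⊤) → ∀ Q₀ : Point K F,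
      ∃ 𝓛 : Set (Set (Fin m → Point K F)), 𝓛.Finite ∧ (∀ L ∈ 𝓛, ∃ E I Q, L = diagonal E I Q) ∧
        ∀ Λ : Set (Fin m → ℤ), ∃ 𝓜 ⊆ 𝓛,
          {P : Fin m → Point K F | ∀ l ∈ Λ, IsTorsion (rel Q₀ P l)} = ⋃₀ 𝓜) := by
  have hfd : FiniteDimensional (RatFunc K) F :=
    FiniteDimensional.of_finrank_pos (by rw [hA.rank]; exact hn)
  obtain ⟨D, T, hD1, hD2, hT1, hT2⟩ := part_DEX K F δ
  have hPUI : S_PUIZ.{u, v} := part_PU2Z part_PW (part_PU1Z part_PW)
  have hTT : S_TTZ.{u, v} := part_TTZ part_PW hPUI part_TR
  have hFZP : S_FZP.{u, v} := fzp_of (part_CONST part_TR) hPUI hTT (part_UNRM part_TR hPUI)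
    (part_RAMT part_TR (part_PAIR part_TR part_INT) hTT)
  exact ⟨fun h hh hm => hFZP K F n hn δ t ht S hS a hA D T hD1 hD2 hT1 hT2 (m + 1) hgon h hh hm,
    fun hmin Q₀ => zpc_of (part_CONST part_TR) hPUI hTT hFZP
      (part_FIBC part_TR hPUI (part_UNRM part_TR hPUI)) (part_FIN part_TR hPUI)
      K F n hn δ t ht S hS a hA D T hD1 hD2 hT1 hT2 hmin m hgon Q₀⟩

end Pool.Agent.Results.MP_4fdccb_ag.CurvePowers
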