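import Pool.Agent.N18.KM.Pink
import Pool.Agent.N24.RW.All
import Pool.Agent.N676.RV.Pro

/-!
# MP_4fdccb_ag: Pink's conjecture (abelian schemes, toric rank 0) for families of subvarieties of the powers of elliptic schemes, parameters in
# families of vectors of residues

**The families** are those of `ManyParameters` (starting file of MP_28d749_ag) and `MetricSequences`. The base is the space of all
`b = (b_1, b_2, …, b_{2+r}) ∈ ℂ^(2+r)` with `4 b_1³ + 27 b_2² ≠ 0`, and the fibre at `b` is the `q`-th power of
the elliptic curve `y² = x³ + b_1 x + b_2` (`curve`). A family is a finite system of polynomials in the coordinates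
`(b, x(P_1), …, x(P_q))` and `N` auxiliary coordinates with the exponents `supp j` and the coefficients
`c j β ∈ ℤ[t_1, …, t_s][t_0]`; the member `X_t` (`OnX`) is the set of the points `(P_1, …, P_q)`, with all `P_l`
different from the origin, for which there is a `y ∈ ℂ^N` with which all the equations with the coefficients evaluated
at `t ∈ ℤ^(1+s)` hold.

**The condition** is the one of `ManyParameters` for hypersurfaces `h_1, …, h_M` of degree one in `t_0` (`HasOrd`,
`GenericP`: the tropicalizations of the family along these hypersurfaces); the coefficients of `h_l`, also the leading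
one, may be any polynomials in `t_1, …, t_s`.

**The vectors of parameters** are `c₀ + y_i`, `i ∈ s`, where `c₀` is any integral vector and the `y_i` are the least
residues of vectors of residues modulo `q` whose Fourier coefficients at the nonzero frequencies are at most
`|s| / (Z (42 + 3 log q) ^ r)`, `r = 1 + s` (`Small`), `Z ≤ q`, `Z → ∞`. There are very thin families of this kind
(`Examples`): products of cosets of subgroups of order `≥ 5 p^(3/8+δ)` of the multiplicative group modulo primes `p`,
products of sets of quotients `j / r` modulo `p` of polylogarithmic size, polynomial curves `(f_j(n))_j` modulo `p`,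
`n ≤ p^(1/d+δ)`, `d` the smallest of the different degrees.

**Theorem.** (1) For each family of subvarieties with the condition and each `ε > 0` there is `Z₀` such that for all
families of vectors with `Z ≥ Z₀` and all `c₀`, for all but `ε |s|` of the `i ∈ s`, the member `X_t`, `t = c₀ + y_i`, has
no atypical intersection with algebraic subgroups of the fibres: for every `ρ` every irreducible constructible subset
of `X_t ∩ 𝒜^[≥ρ]` has dimension at most `m - ρ`, and the points of `X_t ∩ 𝒜^[≥ρ]` have transcendence degree at most
`m - ρ` over `ℚ` (`NoAtypicalP`).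

(2) For each sequence of families of vectors with `Z k → ∞` there are exceptional sets `E k` of members of the families,
of proportions tending to zero, such that for ALL families of subvarieties with the condition (all `r`, `q`, `N`, `m`, all
systems of equations) and all large `k` the members `X_t` for all `i ∈ s k` outside `E k` have no atypical intersection.

(3) The examples of families of vectors.

Proof. The local criterion (starting library, `local_pink` of helper18) holds outside finitely many pronull sets
(density of the suitable residue classes modulo `p²` by helper514; helper24, helper300). The families of vectors are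
uniformly distributed modulo all integers up to a power of `Z` (helper384), so they have few members in a pronull set.
-/

set_option autoImplicit false

namespace Pool.Agent.Results.MP_4fdccb_ag.ResidueVectors

open Filter Topology Pool.Agent.R424.MP Pool.Agent.R424.PT Pool.Agent.N676.RV
open Pool.Agent.Results.MP_28d749_ag.RandomMultisections (curve)

/-- the member of the family of subvarieties at the vector `v` of parameters has no atypical intersections -/
def Mem {s r q N : ℕ} {κ : Type} (m : ℕ) (supp : κ → Finset ((Coord r q ⊕ Fin N) →₀ ℕ))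
    (c : κ → ((Coord r q ⊕ Fin N) →₀ ℕ) → Polynomial (MvPolynomial (Fin s) ℤ)) (v : Fin (s + 1) → ℤ) : Prop :=
  NoAtypicalP m (OnX supp (fun j β => ((ev (v 0) (fun i => v i.succ) (c j β) : ℤ) : ℂ)) :
    ∀ z : Fin 2 ⊕ Fin r → ℂ, (Fin q → (curve (z (Sum.inl 0)) (z (Sum.inl 1))).Point) → Prop)

theorem result (s : ℕ) :
    (∀ (κ : Type) [Finite κ] (r q N m M : ℕ) (supp : κ → Finset ((Coord r q ⊕ Fin N) →₀ ℕ))
      (c : κ → ((Coord r q ⊕ Fin N) →₀ ℕ) → Polynomial (MvPolynomial (Fin s) ℤ))
      (h : Fin M → Polynomial (MvPolynomial (Fin s) ℤ)) (_ : ∀ l, (h l).natDegree = 1)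
      (e : Fin M → κ → ((Coord r q ⊕ Fin N) →₀ ℕ) → ℕ)
      (_ : ∀ l j, ∀ β ∈ supp j, HasOrd (h l) (c j β) (e l j β)) (_ : GenericP m supp e),
      AlmostAll (Mem m supp c)) ∧
    (∀ F : Fams (Fin (s + 1)), ∃ E : ∀ k, Set (F.τ k), F.Thin E ∧
      ∀ (κ : Type) [Finite κ] (r q N m M : ℕ) (supp : κ → Finset ((Coord r q ⊕ Fin N) →₀ ℕ))
        (c : κ → ((Coord r q ⊕ Fin N) →₀ ℕ) → Polynomial (MvPolynomial (Fin s) ℤ))
        (h : Fin M → Polynomial (MvPolynomial (Fin s) ℤ)) (_ : ∀ l, (h l).natDegree = 1)
        (e : Fin M → κ → ((Coord r q ⊕ Fin N) →₀ ℕ) → ℕ)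
        (_ : ∀ l j, ∀ β ∈ supp j, HasOrd (h l) (c j β) (e l j β)) (_ : GenericP m supp e),
        ∀ᶠ k in atTop, ∀ i ∈ F.s k, i ∉ E k → Mem m supp c (F.v k i)) ∧
    Examples := by
  refine ⟨?_, ?_, examples⟩
  · intro κ _ r q N m M supp c h hdeg e he hgen
    obtain ⟨G, hG, hloc⟩ := Pool.Agent.N18.KM.local_pink supp c h e he hgen
    have hB : Pool.Agent.N24.RW.ProNull {v : Fin (s + 1) → ℤ | ∃ l ∈ (Finset.univ : Finset (Fin M)),
        v ∈ Pool.Agent.N18.KM.Bp (h l) (G l)} :=
      pro_biUnion (fun l => Pool.Agent.N18.KM.Bp (h l) (G l))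
        (fun l => Pool.Agent.N18.KM.bp_null Pool.Agent.N24.RW.crit Pool.Agent.N24.RW.clo _ _ (hdeg l) (hG l)) _
    intro ε hε
    obtain ⟨Z₀, h0⟩ := pro_fam hB ε hε
    refine ⟨Z₀, fun τ q' _ S y Z hZ hsm c₀ => le_trans (ncard_mono fun i _ hi => ?_) (h0 τ q' S y Z hZ hsm c₀)⟩
    intro hcon
    apply hi
    exact hloc _ fun l => by_contra fun h' => hcon ⟨l, Finset.mem_univ l, h'⟩
  · intro F
    obtain ⟨E, hE, h1⟩ := one_fam F (κ := Pool.Agent.N18.KM.DatP s)
      (fun x => Pool.Agent.N18.KM.Bp x.1.1 x.1.2)
      (fun x => Pool.Agent.N18.KM.bp_null Pool.Agent.N24.RW.crit Pool.Agent.N24.RW.clo _ _ x.2.1 x.2.2)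
    refine ⟨E, hE, ?_⟩
    intro κ _ r q N m M supp c h hdeg e he hgen
    obtain ⟨G, hG, hloc⟩ := Pool.Agent.N18.KM.local_pink supp c h e he hgen
    have h2 : ∀ᶠ k in atTop, ∀ l : Fin M, ∀ i ∈ F.s k, i ∉ E k →
        F.v k i ∉ Pool.Agent.N18.KM.Bp (h l) (G l) :=
      eventually_all.2 fun l => h1 ⟨(h l, G l), hdeg l, hG l⟩
    filter_upwards [h2] with k hk i hi hiE
    exact hloc _ fun l => by_contra fun h' => hk l i hi hiE h'

end Pool.Agent.Results.MP_4fdccb_ag.ResidueVectors
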